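import Pool.Agent.Lib.H10.LPF.Smooth

/-!
# The Euler product in Rankin's bound, with a large exponent
-/

namespace Pool.Agent.Lib.H20R

open Finset
open Pool.Agent.Lib.Sieve
open Pool.Agent.Lib.Helper57
open Pool.Agent.Lib.H10.LPF

/-- The constant from the squares. -/
noncomputable def K0 : ℝ := ∑' n : ℕ, 1 / (n : ℝ) ^ (1.8 : ℝ)

theorem sum_sq_le (S : Finset ℕ) : ∑ p ∈ S, 1 / (p : ℝ) ^ (1.8 : ℝ) ≤ K0 := by
  have hs : Summable (fun n : ℕ => 1 / (n : ℝ) ^ (1.8 : ℝ)) :=
    Real.summable_one_div_nat_rpow.mpr (by norm_num)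
  exact hs.sum_le_tsum S (fun i _ => by positivity)

/-- Convexity of the exponential. -/
theorem exp_sub_one_le (u v : ℝ) (hu : 0 ≤ u) (huv : u ≤ v) (hv : 0 < v) :
    Real.exp u ≤ 1 + u / v * (Real.exp v - 1) := by
  have h := convexOn_exp.2 (Set.mem_univ v) (Set.mem_univ 0)
    (show (0 : ℝ) ≤ u / v by positivity) (show (0 : ℝ) ≤ 1 - u / v by
      rw [sub_nonneg, div_le_one hv]
      exact huv) (by ring)
  simp only [smul_eq_mul, mul_zero, add_zero, Real.exp_zero, mul_one] at h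
  rw [div_mul_cancel₀ _ hv.ne'] at h
  linarith

/-- The Euler product. -/
theorem euler_le (z : ℕ) (hz : 2 ≤ z) (η : ℝ) (h0 : 0 < η) (h1 : η ≤ 1 / 10) :
    ∏ p ∈ primesUpTo z, (1 - (p : ℝ) ^ (-(1 - η)))⁻¹ ≤
      Real.exp (4 + 3 * K0 + 3 * Real.exp (η * Real.log z)) * Real.log z := by
  have hz' : (2 : ℝ) ≤ z := by exact_mod_cast hz
  have hlogz : 0 < Real.log z := Real.log_pos (by linarith)
  set E := Real.exp (η * Real.log z) with hE
  have hv0 : 0 < η * Real.log z := by positivity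
  have hE1 : 0 ≤ E - 1 := by
    have := Real.add_one_le_exp (η * Real.log z)
    linarith
  -- bounds for one prime
  have key : ∀ p ∈ primesUpTo z, (1 - (p : ℝ) ^ (-(1 - η)))⁻¹ ≤
      Real.exp (1 / p + (E - 1) / Real.log z * (Real.log p / p)
        + 3 * (1 / (p : ℝ) ^ (1.8 : ℝ))) := by
    intro p hp
    have hp' := mem_primesUpTo.mp hp
    have hp2 : (2 : ℝ) ≤ p := by exact_mod_cast hp'.1.two_le
    have hp0 : (0 : ℝ) < p := by linarith
    have hpz : (p : ℝ) ≤ z := by exact_mod_cast hp'.2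
    have hlogp : 0 < Real.log p := Real.log_pos (by linarith)
    have hlogpz : Real.log p ≤ Real.log z := Real.log_le_log hp0 hpz
    set t := (p : ℝ) ^ (-(1 - η)) with ht
    have htp : 0 < t := Real.rpow_pos_of_pos hp0 _
    have ht1 : t = (p : ℝ) ^ η / p := by
      rw [ht, show -(1 - η) = η - 1 by ring, Real.rpow_sub hp0, Real.rpow_one]
    have hx : (p : ℝ) ^ η = Real.exp (η * Real.log p) := by
      rw [Real.rpow_def_of_pos hp0, mul_comm]
    have htt : t ≤ (p : ℝ) ^ (-(0.9 : ℝ)) := by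
      rw [ht]
      apply Real.rpow_le_rpow_of_exponent_le (by linarith)
      linarith
    -- `t ≤ 0.54`
    have ht2 : t ≤ 0.54 := by
      have : t ≤ (2 : ℝ) ^ (-(0.9 : ℝ)) := by
        refine htt.trans ?_
        apply Real.rpow_le_rpow_of_nonpos (by norm_num) hp2
        norm_num
      refine this.trans ?_
      rw [Real.rpow_neg (by norm_num)]
      have h3 : (1.8519 : ℝ) ≤ (2 : ℝ) ^ (0.9 : ℝ) := by
        have : (2 : ℝ) ^ (0.9 : ℝ) = ((2 : ℝ) ^ (9 : ℕ)) ^ ((10 : ℕ) : ℝ)⁻¹ := by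
          rw [← Real.rpow_natCast, ← Real.rpow_mul (by norm_num)]
          norm_num
        rw [this]
        calc (1.8519 : ℝ) = ((1.8519 : ℝ) ^ (10 : ℕ)) ^ ((10 : ℕ) : ℝ)⁻¹ :=
              (Real.pow_rpow_inv_natCast (by norm_num) (by norm_num)).symm
          _ ≤ ((2 : ℝ) ^ (9 : ℕ)) ^ ((10 : ℕ) : ℝ)⁻¹ := by
              apply Real.rpow_le_rpow (by norm_num) (by norm_num) (by norm_num)
      rw [inv_le_comm₀ (by positivity) (by norm_num)]
      refine le_trans ?_ h3
      norm_num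
    have h4 : 0 < 1 - t := by linarith
    rw [← Real.log_le_iff_le_exp (inv_pos.mpr h4), Real.log_inv]
    have h5 : -Real.log (1 - t) ≤ t + 3 * t ^ 2 := by
      rw [← Real.log_inv]
      have h6 := Real.log_le_sub_one_of_pos (inv_pos.mpr h4)
      refine h6.trans ?_
      rw [show (1 - t)⁻¹ - 1 = t / (1 - t) by field_simp; ring, div_le_iff₀ h4]
      nlinarith [mul_nonneg htp.le htp.le, mul_nonneg (mul_nonneg htp.le htp.le) htp.le]
    refine h5.trans ?_
    -- first-order term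
    have h7 : t ≤ 1 / p + (E - 1) / Real.log z * (Real.log p / p) := by
      rw [ht1, hx]
      have h8 := exp_sub_one_le (η * Real.log p) (η * Real.log z) (by positivity)
        (mul_le_mul_of_nonneg_left hlogpz h0.le) hv0
      rw [mul_div_mul_left _ _ h0.ne'] at h8
      calc Real.exp (η * Real.log p) / p
          ≤ (1 + Real.log p / Real.log z * (E - 1)) / p :=
            div_le_div_of_nonneg_right h8 hp0.le
        _ = 1 / p + (E - 1) / Real.log z * (Real.log p / p) := by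
            field_simp
    have h12 : 3 * t ^ 2 ≤ 3 * (1 / (p : ℝ) ^ (1.8 : ℝ)) := by
      have h13 : t ^ 2 ≤ ((p : ℝ) ^ (-(0.9 : ℝ))) ^ 2 := pow_le_pow_left₀ htp.le htt 2
      have h14 : ((p : ℝ) ^ (-(0.9 : ℝ))) ^ 2 = 1 / (p : ℝ) ^ (1.8 : ℝ) := by
        rw [← Real.rpow_natCast, ← Real.rpow_mul hp0.le, one_div, ← Real.rpow_neg hp0.le]
        norm_num
      rw [h14] at h13
      linarith
    linarith
  have hpos : ∀ p ∈ primesUpTo z, 0 ≤ (1 - (p : ℝ) ^ (-(1 - η)))⁻¹ := by
    intro p hp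
    have hp' := mem_primesUpTo.mp hp
    have hp1 : (1 : ℝ) < p := by exact_mod_cast hp'.1.one_lt
    have := Real.rpow_lt_one_of_one_lt_of_neg hp1 (show -(1 - η) < 0 by linarith)
    rw [inv_nonneg]
    linarith
  calc ∏ p ∈ primesUpTo z, (1 - (p : ℝ) ^ (-(1 - η)))⁻¹
      ≤ ∏ p ∈ primesUpTo z,
        Real.exp (1 / p + (E - 1) / Real.log z * (Real.log p / p)
          + 3 * (1 / (p : ℝ) ^ (1.8 : ℝ))) :=
        Finset.prod_le_prod hpos key
    _ = Real.exp (∑ p ∈ primesUpTo z, (1 : ℝ) / p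
          + (E - 1) / Real.log z * ∑ p ∈ primesUpTo z, Real.log p / p
          + 3 * ∑ p ∈ primesUpTo z, 1 / (p : ℝ) ^ (1.8 : ℝ)) := by
        rw [← Real.exp_sum, Finset.sum_add_distrib, Finset.sum_add_distrib, ← Finset.mul_sum,
          ← Finset.mul_sum]
    _ ≤ Real.exp ((4 + 3 * K0 + 3 * E) + Real.log (Real.log z)) := by
        apply Real.exp_le_exp.mpr
        have h5 := sum_inv_primes_le z hz
        have h6 := sum_sq_le (primesUpTo z)
        have h7 := sum_log_div_le z (by omega)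
        have h8 : (E - 1) / Real.log z * ∑ p ∈ primesUpTo z, Real.log p / p ≤ 3 * E := by
          have h9 : Real.log 4 = 2 * Real.log 2 := by
            rw [show (4 : ℝ) = 2 ^ 2 by norm_num, Real.log_pow]; norm_num
          have h10 : Real.log 2 ≤ Real.log z := Real.log_le_log (by norm_num) hz'
          have h11 : ∑ p ∈ primesUpTo z, Real.log p / p ≤ 3 * Real.log z := by linarith
          calc (E - 1) / Real.log z * ∑ p ∈ primesUpTo z, Real.log p / p
              ≤ (E - 1) / Real.log z * (3 * Real.log z) :=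
                mul_le_mul_of_nonneg_left h11 (by positivity)
            _ = 3 * (E - 1) := by field_simp
            _ ≤ 3 * E := by linarith
        linarith
    _ = Real.exp (4 + 3 * K0 + 3 * E) * Real.log z := by
        rw [Real.exp_add, Real.exp_log hlogz]

/-- Rankin's bound. -/
theorem smooth_le (z U : ℕ) (hz : 2 ≤ z) (η : ℝ) (h0 : 0 < η) (h1 : η ≤ 1 / 10) :
    (((Finset.Icc 1 U).filter (fun n => ∀ p ∈ n.primeFactors, p ≤ z)).card : ℝ)
      ≤ (U : ℝ) ^ (1 - η) *
        (Real.exp (4 + 3 * K0 + 3 * Real.exp (η * Real.log z)) * Real.log z) :=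
  (rankin (1 - η) (by linarith) z U).trans
    (mul_le_mul_of_nonneg_left (euler_le z hz η h0 h1) (by positivity))

end Pool.Agent.Lib.H20R
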